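import Pool.Agent.Helper52.TC.Spec

set_option autoImplicit false

namespace Pool.Agent.Helper86.TC

open Pool.Agent.Helper52.TC

theorem mrun_append {E : Type} [DecidableEq E] (C : List (Gate E)) (g : Gate E) :
    mrun (C ++ [g]) = mrun C ++ [g.mons (mrun C)] := by
  unfold mrun
  rw [List.foldl_append]
  rfl

theorem mrun_length {E : Type} [DecidableEq E] (C : List (Gate E)) :
    (mrun C).length = C.length := by
  induction C using List.reverseRecOn with
  | nil => rfl
  | append_singleton C g ih => rw [mrun_append]; simp [ih]

theorem mrun_take {E : Type} [DecidableEq E] (C : List (Gate E)) (k : ℕ) (hk : k ≤ C.length) :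
    mrun (C.take k) = (mrun C).take k := by
  induction C using List.reverseRecOn with
  | nil => simp [mrun]
  | append_singleton C g ih =>
    rw [mrun_append]
    rcases Nat.lt_or_ge C.length k with h | h
    · have hk' : k = C.length + 1 := by
        simp at hk; omega
      subst hk'
      rw [List.take_of_length_le (by simp), List.take_of_length_le (by simp [mrun_length]),
        mrun_append]
    · rw [List.take_append_of_le_length h, ih h,
        List.take_append_of_le_length (by rw [mrun_length]; exact h)]

theorem mon_ge {E : Type} [DecidableEq E] (C : List (Gate E)) (k : ℕ) (hk : C.length ≤ k) :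
    mon C k = {0} := by
  unfold mon
  rw [List.getD_eq_default]
  rw [mrun_length]; exact hk

theorem mon_lt {E : Type} [DecidableEq E] (C : List (Gate E)) (k : ℕ) (hk : k < C.length) :
    mon C k = (C[k]).mons (mrun (C.take k)) := by
  have h1 : mrun (C.take (k + 1)) = mrun (C.take k) ++ [(C[k]).mons (mrun (C.take k))] := by
    rw [List.take_succ_eq_append_getElem hk, mrun_append]
  rw [mrun_take C (k + 1) hk] at h1
  unfold mon
  have h2 : (mrun C).getD k {0} = ((mrun C).take (k + 1)).getD k {0} := by
    have hk' : k < (mrun C).length := by rw [mrun_length]; exact hk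
    rw [List.getD_eq_getElem _ _ hk', List.getD_eq_getElem _ _ (by simp; omega)]
    simp
  rw [h2, h1, mrun_take C k hk.le]
  have h3 : ((mrun C).take k).length = k := by
    rw [List.length_take, mrun_length]; omega
  rw [List.getD_eq_getElem _ _ (by simp [h3])]
  rw [List.getElem_append_right (by rw [h3])]
  simp [h3]

theorem getD_take {E : Type} [DecidableEq E] (C : List (Gate E)) (k i : ℕ) (hk : k < C.length) :
    (mrun (C.take k)).getD i {0} = if i < k then mon C i else {0} := by
  rw [mrun_take C k hk.le]
  split_ifs with h
  · unfold mon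
    have hi : i < (mrun C).length := by rw [mrun_length]; omega
    rw [List.getD_eq_getElem _ _ hi, List.getD_eq_getElem _ _ (by simp; omega)]
    simp
  · rw [List.getD_eq_default]
    rw [List.length_take, mrun_length]; omega

theorem wt_add {E : Type} [Fintype E] (μ a b : E → ℕ) : wt μ (a + b) = wt μ a + wt μ b := by
  unfold wt
  rw [← Finset.sum_add_distrib]
  exact Finset.sum_congr rfl fun e _ => by simp [add_mul]

theorem wt_zero {E : Type} [Fintype E] (μ : E → ℕ) : wt μ 0 = 0 := by
  simp [wt]

theorem wt_single {E : Type} [Fintype E] [DecidableEq E] (μ : E → ℕ) (e : E) :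
    wt μ (Pi.single e 1) = μ e := by
  unfold wt
  rw [Finset.sum_eq_single e]
  · simp
  · intro b _ hb
    simp [hb]
  · simp

theorem step {E : Type} [Fintype E] [DecidableEq E] (C : List (Gate E)) (μ : E → ℕ)
    (hμ : ∀ e, μ e ≤ 1) (z : Mon E) (hz : 2 ≤ wt μ z.1) :
    ∀ (k : ℕ) (x y : Mon E), x ∈ mon C k → z = x + y → (∀ x' ∈ mon C k, x' + y ∈ mout C) →
      2 * wt μ z.1 < 3 * wt μ x.1 →
      ∃ k < C.length, ∃ x ∈ mon C k, ∃ y : Mon E, z = x + y ∧
        (∀ x' ∈ mon C k, x' + y ∈ mout C) ∧
        wt μ z.1 < 3 * wt μ x.1 ∧ 3 * wt μ x.1 ≤ 2 * wt μ z.1 := by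
  intro k
  induction k using Nat.strong_induction_on with
  | _ k ih =>
    intro x y hx hzxy hcl hwt
    rcases Nat.lt_or_ge k C.length with hk | hk
    swap
    · rw [mon_ge C k hk, Set.mem_singleton_iff] at hx
      subst hx
      simp only [Prod.fst_zero, wt_zero] at hwt
      omega
    · rw [mon_lt C k hk] at hx hcl
      rcases hg : C[k] with e | c | ⟨i, j⟩ | ⟨i, j⟩
      · rw [hg] at hx
        simp only [Gate.mons, Set.mem_singleton_iff] at hx
        subst hx
        simp only [wt_single] at hwt
        have := hμ e
        omega
      · rw [hg] at hx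
        simp only [Gate.mons, Set.mem_singleton_iff] at hx
        subst hx
        simp only [wt_zero] at hwt
        omega
      · rw [hg] at hx hcl
        simp only [Gate.mons, getD_take C k _ hk] at hx hcl
        rcases hx with hx | hx
        · split_ifs at hx with hi
          · refine ih i hi x y hx hzxy (fun x' hx' => hcl x' (Or.inl ?_)) hwt
            rw [if_pos hi]; exact hx'
          · rw [Set.mem_singleton_iff] at hx
            subst hx
            simp only [Prod.fst_zero, wt_zero] at hwt
            omega
        · split_ifs at hx with hi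
          · refine ih j hi x y hx hzxy (fun x' hx' => hcl x' (Or.inr ?_)) hwt
            rw [if_pos hi]; exact hx'
          · rw [Set.mem_singleton_iff] at hx
            subst hx
            simp only [Prod.fst_zero, wt_zero] at hwt
            omega
      · rw [hg] at hx hcl
        simp only [Gate.mons, getD_take C k _ hk, Set.mem_setOf_eq] at hx hcl
        obtain ⟨x1, hx1, x2, hx2, rfl⟩ := hx
        have key : ∀ (i : ℕ) (u v : Mon E), u ∈ (if i < k then mon C i else {0}) →
            z = u + v → (∀ x' ∈ (if i < k then mon C i else ({0} : Set (Mon E))), x' + v ∈ mout C) →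
            wt μ z.1 < 3 * wt μ u.1 →
            ∃ k < C.length, ∃ x ∈ mon C k, ∃ y : Mon E, z = x + y ∧
              (∀ x' ∈ mon C k, x' + y ∈ mout C) ∧
              wt μ z.1 < 3 * wt μ x.1 ∧ 3 * wt μ x.1 ≤ 2 * wt μ z.1 := by
          intro i u v hu hzuv hcl' hw
          by_cases hi : i < k
          · rw [if_pos hi] at hu hcl'
            by_cases h2 : 3 * wt μ u.1 ≤ 2 * wt μ z.1
            · exact ⟨i, by omega, u, hu, v, hzuv, hcl', hw, h2⟩
            · exact ih i hi u v hu hzuv hcl' (by omega)
          · rw [if_neg hi, Set.mem_singleton_iff] at hu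
            subst hu
            simp only [Prod.fst_zero, wt_zero] at hw
            omega
        have hsum : wt μ (x1 + x2).1 = wt μ x1.1 + wt μ x2.1 := by
          rw [Prod.fst_add, wt_add]
        rw [hsum] at hwt
        rcases le_total (wt μ x1.1) (wt μ x2.1) with h | h
        · refine key j x2 (x1 + y) hx2 (by rw [hzxy]; abel) (fun x' hx' => ?_) (by omega)
          have := hcl (x1 + x') ⟨x1, hx1, x', hx', rfl⟩
          have e : x' + (x1 + y) = x1 + x' + y := by abel
          rw [e]; exact this
        · refine key i x1 (x2 + y) hx1 (by rw [hzxy]; abel) (fun x' hx' => ?_) (by omega)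
          have := hcl (x' + x2) ⟨x', hx', x2, hx2, rfl⟩
          have e : x' + (x2 + y) = x' + x2 + y := by abel
          rw [e]; exact this

theorem mout_eq {E : Type} [DecidableEq E] (C : List (Gate E)) (hC : C ≠ []) :
    mout C = mon C (C.length - 1) := by
  have h : mrun C ≠ [] := by
    intro h
    have := mrun_length C
    rw [h] at this
    simp at this
    exact hC (List.length_eq_zero_iff.1 this.symm)
  unfold mout mon
  rw [List.getLastD_eq_getLast?, List.getLast?_eq_getElem?, List.getD_eq_getElem?_getD, mrun_length]

/-- (C2) balanced decomposition of the monomials -/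
theorem C2 : specC2 := by
  intro E _ _ C μ hμ z hz hw
  by_cases hC : C = []
  · subst hC
    have : mout ([] : List (Gate E)) = {0} := rfl
    rw [this, Set.mem_singleton_iff] at hz
    subst hz
    simp only [Prod.fst_zero, wt_zero] at hw
    omega
  · have hpos : 0 < wt μ z.1 := by omega
    refine step C μ hμ z hw (C.length - 1) z 0 (mout_eq C hC ▸ hz) (by simp) ?_ (by omega)
    intro x' hx'
    rw [← mout_eq C hC] at hx'
    simpa using hx'

end Pool.Agent.Helper86.TC
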