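import Pool.Agent.Helper52.TC.Spec
import Pool.Agent.Helper86.TC.C2

set_option autoImplicit false

namespace Pool.Agent.Helper86.TC

open Pool.Agent.Helper52.TC

theorem run_append {E : Type} (d : E → ℝ) (C : List (Gate E)) (g : Gate E) :
    run d (C ++ [g]) = run d C ++ [g.val d (run d C)] := by
  unfold run
  rw [List.foldl_append]
  rfl

theorem run_length {E : Type} (d : E → ℝ) (C : List (Gate E)) :
    (run d C).length = C.length := by
  induction C using List.reverseRecOn with
  | nil => rfl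
  | append_singleton C g ih => rw [run_append]; simp [ih]

/-- the invariant -/
def Ok {E : Type} [Fintype E] (d : E → ℝ) (S : Set (Mon E)) (v : ℝ) : Prop :=
  S.Finite ∧ IsLeast {r | ∃ z ∈ S, r = z.val d} v

theorem val_add {E : Type} [Fintype E] (d : E → ℝ) (x y : Mon E) :
    (x + y).val d = x.val d + y.val d := by
  unfold Mon.val
  simp only [Prod.fst_add, Prod.snd_add, Pi.add_apply, Nat.cast_add, add_mul,
    Finset.sum_add_distrib]
  ring

theorem val_zero {E : Type} [Fintype E] (d : E → ℝ) : (0 : Mon E).val d = 0 := by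
  unfold Mon.val
  simp

theorem ok_zero {E : Type} [Fintype E] (d : E → ℝ) : Ok d ({0} : Set (Mon E)) 0 := by
  refine ⟨Set.finite_singleton _, ⟨0, rfl, (val_zero d).symm⟩, ?_⟩
  rintro r ⟨z, hz, rfl⟩
  rw [Set.mem_singleton_iff] at hz
  subst hz
  rw [val_zero]

theorem ok_union {E : Type} [Fintype E] (d : E → ℝ) (S T : Set (Mon E)) (s t : ℝ)
    (hS : Ok d S s) (hT : Ok d T t) : Ok d (S ∪ T) (min s t) := by
  obtain ⟨hf, ⟨z, hz, hzs⟩, hl⟩ := hS
  obtain ⟨hf', ⟨z', hz', hzt⟩, hl'⟩ := hT
  refine ⟨hf.union hf', ?_, ?_⟩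
  · rcases le_total s t with h | h
    · rw [min_eq_left h]; exact ⟨z, Or.inl hz, hzs⟩
    · rw [min_eq_right h]; exact ⟨z', Or.inr hz', hzt⟩
  · rintro r ⟨w, hw | hw, rfl⟩
    · exact (min_le_left _ _).trans (hl ⟨w, hw, rfl⟩)
    · exact (min_le_right _ _).trans (hl' ⟨w, hw, rfl⟩)

theorem ok_add {E : Type} [Fintype E] (d : E → ℝ) (S T : Set (Mon E)) (s t : ℝ)
    (hS : Ok d S s) (hT : Ok d T t) :
    Ok d {z | ∃ x ∈ S, ∃ y ∈ T, z = x + y} (s + t) := by
  obtain ⟨hf, ⟨z, hz, hzs⟩, hl⟩ := hS
  obtain ⟨hf', ⟨z', hz', hzt⟩, hl'⟩ := hT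
  refine ⟨?_, ?_, ?_⟩
  · refine (hf.image2 (fun x y => x + y) hf').subset ?_
    rintro w ⟨x, hx, y, hy, rfl⟩
    exact ⟨x, hx, y, hy, rfl⟩
  · exact ⟨z + z', ⟨z, hz, z', hz', rfl⟩, by rw [val_add, ← hzs, ← hzt]⟩
  · rintro r ⟨w, ⟨x, hx, y, hy, rfl⟩, rfl⟩
    rw [val_add]
    exact add_le_add (hl ⟨x, hx, rfl⟩) (hl' ⟨y, hy, rfl⟩)

theorem ok_gate {E : Type} [Fintype E] [DecidableEq E] (d : E → ℝ) (S : List (Set (Mon E)))
    (vals : List ℝ) (h : ∀ i, Ok d (S.getD i {0}) (vals.getD i 0)) (g : Gate E) :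
    Ok d (g.mons S) (g.val d vals) := by
  rcases g with e | c | ⟨i, j⟩ | ⟨i, j⟩
  · have hv : Mon.val ((Pi.single e 1, 0) : Mon E) d = d e := by
      unfold Mon.val
      simp only [add_zero]
      rw [Finset.sum_eq_single e]
      · simp
      · intro b _ hb
        simp [hb]
      · simp
    refine ⟨Set.finite_singleton _, ⟨_, rfl, hv.symm⟩, ?_⟩
    rintro r ⟨z, hz, rfl⟩
    rw [Gate.mons, Set.mem_singleton_iff] at hz
    subst hz
    exact hv.ge
  · have hv : Mon.val ((0, c) : Mon E) d = c := by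
      unfold Mon.val
      simp
    refine ⟨Set.finite_singleton _, ⟨_, rfl, hv.symm⟩, ?_⟩
    rintro r ⟨z, hz, rfl⟩
    rw [Gate.mons, Set.mem_singleton_iff] at hz
    subst hz
    exact hv.ge
  · exact ok_union d _ _ _ _ (h i) (h j)
  · exact ok_add d _ _ _ _ (h i) (h j)

theorem ok_all {E : Type} [Fintype E] [DecidableEq E] (d : E → ℝ) (C : List (Gate E)) :
    ∀ i, Ok d ((mrun C).getD i {0}) ((run d C).getD i 0) := by
  induction C using List.reverseRecOn with
  | nil =>
    intro i
    simpa [mrun, run] using ok_zero d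
  | append_singleton C g ih =>
    intro i
    rw [mrun_append, run_append]
    have h1 := mrun_length C
    have h2 := run_length d C
    rcases lt_trichotomy i C.length with h | h | h
    · rw [List.getD_append _ _ _ _ (by omega), List.getD_append _ _ _ _ (by omega)]
      exact ih i
    · rw [List.getD_append_right _ _ _ _ (by omega), List.getD_append_right _ _ _ _ (by omega),
        h1, h2, h]
      simpa using ok_gate d (mrun C) (run d C) ih g
    · rw [List.getD_eq_default _ _ (by simp; omega), List.getD_eq_default _ _ (by simp; omega)]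
      exact ok_zero d

/-- (C1) the output is the least value of the monomials -/
theorem C1 : specC1 := by
  intro E _ _ C
  have key : ∀ d : E → ℝ, Ok d (mout C) (out d C) := by
    intro d
    by_cases hC : C = []
    · subst hC
      exact ok_zero d
    · rw [mout_eq C hC]
      have : out d C = (run d C).getD (C.length - 1) 0 := by
        unfold out
        rw [List.getLastD_eq_getLast?, List.getLast?_eq_getElem?, List.getD_eq_getElem?_getD,
          run_length]
      rw [this]
      exact ok_all d C _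
  exact ⟨(key 0).1, fun d => (key d).2⟩

end Pool.Agent.Helper86.TC
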