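import Pool.Agent.Helper52.TC.Spec

set_option autoImplicit false

namespace Pool.Agent.Helper86.TC

open Pool.Agent.Helper52.TC

theorem sqrt_up (A B : ℝ) (hA : 1 / 2 ≤ A) : Real.sqrt (A ^ 2 + B ^ 2) ≤ A + B ^ 2 := by
  rw [Real.sqrt_le_left (by positivity)]
  nlinarith [sq_nonneg B, mul_nonneg (sq_nonneg B) (by linarith : (0:ℝ) ≤ 2 * A - 1),
    sq_nonneg (B ^ 2)]

theorem sqrt_lo (A B : ℝ) : A ≤ Real.sqrt (A ^ 2 + B ^ 2) := by
  apply Real.le_sqrt_of_sq_le
  nlinarith [sq_nonneg B]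

theorem int_lem (a : ℤ) : |a| ≤ a ^ 2 := by
  rw [← sq_abs]
  have h := abs_nonneg a
  rcases h.eq_or_lt with h0 | h0
  · rw [← h0]; norm_num
  · nlinarith

theorem far_lem (a b : ℤ) (δ₁ δ₂ : ℝ) (hab : 2 ≤ a ^ 2 + b ^ 2) (h1 : |δ₁| ≤ 1 / 20)
    (h2 : |δ₂| ≤ 1 / 20) : 5 / 4 ≤ Real.sqrt (((a : ℝ) + δ₁) ^ 2 + ((b : ℝ) + δ₂) ^ 2) := by
  apply Real.le_sqrt_of_sq_le
  have ha : |(a : ℝ)| ≤ (a : ℝ) ^ 2 := by
    have : |a| ≤ a ^ 2 := int_lem a
    exact_mod_cast this
  have hb : |(b : ℝ)| ≤ (b : ℝ) ^ 2 := by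
    have : |b| ≤ b ^ 2 := int_lem b
    exact_mod_cast this
  have hab' : (2 : ℝ) ≤ (a : ℝ) ^ 2 + (b : ℝ) ^ 2 := by exact_mod_cast hab
  have e1 : -( (a:ℝ) ^ 2 * (1 / 20)) ≤ a * δ₁ := by
    have : |(a:ℝ) * δ₁| ≤ (a:ℝ) ^ 2 * (1 / 20) := by
      rw [abs_mul]
      exact mul_le_mul ha h1 (abs_nonneg _) (sq_nonneg _)
    exact (abs_le.1 this).1
  have e2 : -( (b:ℝ) ^ 2 * (1 / 20)) ≤ b * δ₂ := by
    have : |(b:ℝ) * δ₂| ≤ (b:ℝ) ^ 2 * (1 / 20) := by
      rw [abs_mul]
      exact mul_le_mul hb h2 (abs_nonneg _) (sq_nonneg _)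
    exact (abs_le.1 this).1
  nlinarith [sq_nonneg δ₁, sq_nonneg δ₂]

theorem far_int (p q : ℕ × ℕ) (hne : p ≠ q) (hU : ¬ Un p q) :
    2 ≤ ((p.1 : ℤ) - q.1) ^ 2 + ((p.2 : ℤ) - q.2) ^ 2 := by
  by_contra h
  push Not at h
  have h1 : ((p.1 : ℤ) - q.1) ^ 2 ≤ 1 := by nlinarith [sq_nonneg ((p.2 : ℤ) - q.2)]
  have h2 : ((p.2 : ℤ) - q.2) ^ 2 ≤ 1 := by nlinarith [sq_nonneg ((p.1 : ℤ) - q.1)]
  have h3 : (p.1 : ℤ) - q.1 ≤ 1 := by nlinarith
  have h4 : -1 ≤ (p.1 : ℤ) - q.1 := by nlinarith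
  have h5 : (p.2 : ℤ) - q.2 ≤ 1 := by nlinarith
  have h6 : -1 ≤ (p.2 : ℤ) - q.2 := by nlinarith
  obtain ⟨a, b⟩ := p
  obtain ⟨c, d⟩ := q
  simp only at h h1 h2 h3 h4 h5 h6
  unfold Un at hU
  simp only [Prod.mk.injEq, not_or, not_and] at hU
  simp only [ne_eq, Prod.mk.injEq, not_and] at hne
  obtain ⟨g1, g2, g3, g4⟩ := hU
  have hx : (a : ℤ) - c = -1 ∨ (a : ℤ) - c = 0 ∨ (a : ℤ) - c = 1 := by omega
  have hy : (b : ℤ) - d = -1 ∨ (b : ℤ) - d = 0 ∨ (b : ℤ) - d = 1 := by omega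
  rcases hx with hx | hx | hx <;> rcases hy with hy | hy | hy <;>
    first
      | (rw [hx, hy] at h; norm_num at h; done)
      | omega

/-- (P) real perturbations with given first order changes of the unit distances -/
theorem P : specP := by
  intro m pos wH wV hinj
  set SH : ℕ → ℕ → ℝ := fun x y => ∑ x' ∈ Finset.range x, wH x' y with hSH
  set SV : ℕ → ℕ → ℝ := fun x y => ∑ y' ∈ Finset.range y, wV x y' with hSV
  set f : Fin m → ℝ := fun i => |SH (pos i).1 (pos i).2| + |SV (pos i).1 (pos i).2| +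
    |wH (pos i).1 (pos i).2| + |wV (pos i).1 (pos i).2| with hf
  set E : ℝ := 1 + ∑ i, f i with hE
  have hf0 : ∀ i, 0 ≤ f i := fun i => by positivity
  have hfE : ∀ i, f i ≤ E := by
    intro i
    have := Finset.single_le_sum (f := f) (fun j _ => hf0 j) (Finset.mem_univ i)
    linarith
  have hE1 : 1 ≤ E := by
    have : 0 ≤ ∑ i, f i := Finset.sum_nonneg fun i _ => hf0 i
    linarith
  have b1 : ∀ i, |SH (pos i).1 (pos i).2| ≤ E := fun i => by
    have := hfE i
    have h1 := abs_nonneg (SV (pos i).1 (pos i).2)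
    have h2 := abs_nonneg (wH (pos i).1 (pos i).2)
    have h3 := abs_nonneg (wV (pos i).1 (pos i).2)
    simp only [hf] at this
    linarith
  have b2 : ∀ i, |SV (pos i).1 (pos i).2| ≤ E := fun i => by
    have := hfE i
    have h1 := abs_nonneg (SH (pos i).1 (pos i).2)
    have h2 := abs_nonneg (wH (pos i).1 (pos i).2)
    have h3 := abs_nonneg (wV (pos i).1 (pos i).2)
    simp only [hf] at this
    linarith
  have b3 : ∀ i, |wH (pos i).1 (pos i).2| ≤ E := fun i => by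
    have := hfE i
    have h1 := abs_nonneg (SH (pos i).1 (pos i).2)
    have h2 := abs_nonneg (SV (pos i).1 (pos i).2)
    have h3 := abs_nonneg (wV (pos i).1 (pos i).2)
    simp only [hf] at this
    linarith
  have b4 : ∀ i, |wV (pos i).1 (pos i).2| ≤ E := fun i => by
    have := hfE i
    have h1 := abs_nonneg (SH (pos i).1 (pos i).2)
    have h2 := abs_nonneg (SV (pos i).1 (pos i).2)
    have h3 := abs_nonneg (wH (pos i).1 (pos i).2)
    simp only [hf] at this
    linarith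
  refine ⟨4 * E ^ 2, by positivity, 1 / (40 * E), by positivity, ?_⟩
  intro t ht ht'
  have htE : t * E ≤ 1 / 40 := by
    rw [lt_div_iff₀ (by positivity)] at ht'
    linarith
  have hKE : E * t ≤ 4 * E ^ 2 * t := by
    have : E ≤ 4 * E ^ 2 := by nlinarith
    exact mul_le_mul_of_nonneg_right this ht.le
  refine ⟨fun i => ((pos i).1 + t * SH (pos i).1 (pos i).2,
    (pos i).2 + t * SV (pos i).1 (pos i).2), ?_, ?_, ?_, ?_⟩
  · intro i
    constructor
    · simp only [add_sub_cancel_left, abs_mul, abs_of_pos ht]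
      have := mul_le_mul_of_nonneg_left (b1 i) ht.le
      linarith
    · simp only [add_sub_cancel_left, abs_mul, abs_of_pos ht]
      have := mul_le_mul_of_nonneg_left (b2 i) ht.le
      linarith
  · intro i j hij
    have hj1 : (pos j).1 = (pos i).1 + 1 := by rw [hij]
    have hj2 : (pos j).2 = (pos i).2 := by rw [hij]
    set A : ℝ := 1 + t * wH (pos i).1 (pos i).2 with hA
    set B : ℝ := t * (SV (pos j).1 (pos j).2 - SV (pos i).1 (pos i).2) with hB
    have hrd : rd2 ((pos i).1 + t * SH (pos i).1 (pos i).2, (pos i).2 + t * SV (pos i).1 (pos i).2)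
        ((pos j).1 + t * SH (pos j).1 (pos j).2, (pos j).2 + t * SV (pos j).1 (pos j).2) =
        Real.sqrt (A ^ 2 + B ^ 2) := by
      unfold rd2
      congr 1
      have e1 : SH (pos j).1 (pos j).2 = SH (pos i).1 (pos i).2 + wH (pos i).1 (pos i).2 := by
        rw [hj1, hj2]
        exact Finset.sum_range_succ _ _
      have e2 : ((pos j).1 : ℝ) = (pos i).1 + 1 := by rw [hj1]; push_cast; ring
      have e3 : ((pos j).2 : ℝ) = (pos i).2 := by rw [hj2]
      simp only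
      rw [e1, e2, e3, hA, hB]
      ring
    have hAhalf : 1 / 2 ≤ A := by
      have h1 : |t * wH (pos i).1 (pos i).2| ≤ t * E := by
        rw [abs_mul, abs_of_pos ht]
        exact mul_le_mul_of_nonneg_left (b3 i) ht.le
      have := (abs_le.1 h1).1
      rw [hA]; linarith
    have hB2 : B ^ 2 ≤ 4 * E ^ 2 * t ^ 2 := by
      have h1 : |B| ≤ t * (2 * E) := by
        rw [hB, abs_mul, abs_of_pos ht]
        refine mul_le_mul_of_nonneg_left ?_ ht.le
        refine (abs_sub _ _).trans ?_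
        linarith [b2 i, b2 j]
      have h2 : B ^ 2 ≤ (t * (2 * E)) ^ 2 := by
        rw [← sq_abs]
        exact pow_le_pow_left₀ (abs_nonneg _) h1 2
      linarith [h2, (by ring : (t * (2 * E)) ^ 2 = 4 * E ^ 2 * t ^ 2)]
    rw [hrd]
    exact ⟨sqrt_lo A B, (sqrt_up A B hAhalf).trans (by linarith)⟩
  · intro i j hij
    have hj1 : (pos j).1 = (pos i).1 := by rw [hij]
    have hj2 : (pos j).2 = (pos i).2 + 1 := by rw [hij]
    set A : ℝ := 1 + t * wV (pos i).1 (pos i).2 with hA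
    set B : ℝ := t * (SH (pos j).1 (pos j).2 - SH (pos i).1 (pos i).2) with hB
    have hrd : rd2 ((pos i).1 + t * SH (pos i).1 (pos i).2, (pos i).2 + t * SV (pos i).1 (pos i).2)
        ((pos j).1 + t * SH (pos j).1 (pos j).2, (pos j).2 + t * SV (pos j).1 (pos j).2) =
        Real.sqrt (A ^ 2 + B ^ 2) := by
      unfold rd2
      congr 1
      have e1 : SV (pos j).1 (pos j).2 = SV (pos i).1 (pos i).2 + wV (pos i).1 (pos i).2 := by
        rw [hj1, hj2]
        exact Finset.sum_range_succ _ _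
      have e2 : ((pos j).2 : ℝ) = (pos i).2 + 1 := by rw [hj2]; push_cast; ring
      have e3 : ((pos j).1 : ℝ) = (pos i).1 := by rw [hj1]
      simp only
      rw [e1, e2, e3, hA, hB]
      ring
    have hAhalf : 1 / 2 ≤ A := by
      have h1 : |t * wV (pos i).1 (pos i).2| ≤ t * E := by
        rw [abs_mul, abs_of_pos ht]
        exact mul_le_mul_of_nonneg_left (b4 i) ht.le
      have := (abs_le.1 h1).1
      rw [hA]; linarith
    have hB2 : B ^ 2 ≤ 4 * E ^ 2 * t ^ 2 := by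
      have h1 : |B| ≤ t * (2 * E) := by
        rw [hB, abs_mul, abs_of_pos ht]
        refine mul_le_mul_of_nonneg_left ?_ ht.le
        refine (abs_sub _ _).trans ?_
        linarith [b1 i, b1 j]
      have h2 : B ^ 2 ≤ (t * (2 * E)) ^ 2 := by
        rw [← sq_abs]
        exact pow_le_pow_left₀ (abs_nonneg _) h1 2
      linarith [h2, (by ring : (t * (2 * E)) ^ 2 = 4 * E ^ 2 * t ^ 2)]
    rw [hrd]
    exact ⟨sqrt_lo A B, (sqrt_up A B hAhalf).trans (by linarith)⟩
  · intro i j hne hU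
    have hne' : pos i ≠ pos j := fun h => hne (hinj h)
    have hint := far_int _ _ hne' hU
    have hd : ∀ u v : ℝ, |u| ≤ E → |v| ≤ E → |t * (u - v)| ≤ 1 / 20 := by
      intro u v hu hv
      rw [abs_mul, abs_of_pos ht]
      have h1 : |u - v| ≤ 2 * E := (abs_sub _ _).trans (by linarith)
      have h2 := mul_le_mul_of_nonneg_left h1 ht.le
      linarith
    have := far_lem (((pos i).1 : ℤ) - (pos j).1) (((pos i).2 : ℤ) - (pos j).2)
      (t * (SH (pos i).1 (pos i).2 - SH (pos j).1 (pos j).2))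
      (t * (SV (pos i).1 (pos i).2 - SV (pos j).1 (pos j).2)) hint
      (hd _ _ (b1 i) (b1 j)) (hd _ _ (b2 i) (b2 j))
    refine this.trans_eq ?_
    unfold rd2
    congr 1
    push_cast
    ring

end Pool.Agent.Helper86.TC
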